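import Pool.Agent.helper84.NR.SpecW

set_option autoImplicit false

/-!
# Row CLO of project NRW (MP_133bfc_co)
-/

namespace Pool.Agent.helper84.NR

open scoped Classical
open Finset

theorem CLO_nx {V F : Type} (M : PMap V F) (x : V) (A : F) (hA : OnV M.toCyc A x) (i : ℕ)
    (h1 : 1 ≤ i) (h2 : i < M.len A) : ww M x A i ≠ x := by
  obtain ⟨hinj, -, -, -, -⟩ := h_IDX V F M.toCyc A (st M x A)
  obtain ⟨hx0, -⟩ := h_WW0 V F M x A hA
  intro h
  have h3 : M.bd A (st M x A + i) = M.bd A (st M x A + 0) := h.trans hx0.symm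
  have h4 := hinj i 0 h2 (by omega) h3
  omega

theorem CLO_cx {V F : Type} (M : PMap V F) (x : V) (A : F) (hA : OnV M.toCyc A x) (i : ℕ)
    (h1 : 1 ≤ i) (h2 : i + 1 < M.len A) :
    x ∉ s(ww M x A i, ww M x A (i + 1)) ∧ OnE M.toCyc A s(ww M x A i, ww M x A (i + 1)) := by
  refine ⟨?_, st M x A + i, rfl⟩
  intro h
  rcases Sym2.mem_iff.1 h with h | h
  · exact CLO_nx M x A hA i h1 (by omega) h.symm
  · exact CLO_nx M x A hA (i + 1) (by omega) h2 h.symm

theorem CLO_idx {V F : Type} (M : PMap V F) (x : V) (A : F) (hA : OnV M.toCyc A x) (e : Sym2 V)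
    (he : OnE M.toCyc A e) (hx : x ∉ e) :
    ∃ a, 1 ≤ a ∧ a + 1 < M.len A ∧ e = s(ww M x A a, ww M x A (a + 1)) := by
  obtain ⟨-, -, hedge, -, -⟩ := h_IDX V F M.toCyc A (st M x A)
  obtain ⟨a, ha, hea⟩ := hedge e he
  obtain ⟨hx0, hxl⟩ := h_WW0 V F M x A hA
  refine ⟨a, ?_, ?_, hea⟩
  · by_contra hcon
    have h0 : a = 0 := by omega
    subst h0
    apply hx
    rw [hea]
    exact Sym2.mem_iff.2 (Or.inl hx0.symm)
  · by_contra hcon
    have h0 : a + 1 = M.len A := by omega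
    apply hx
    rw [hea]
    refine Sym2.mem_iff.2 (Or.inr ?_)
    have h3 : ww M x A (a + 1) = x := by rw [h0]; exact hxl
    exact h3.symm

theorem CLO_at {V F : Type} (M : PMap V F) (x : V) (A : F) (hA : OnV M.toCyc A x) (v : V)
    (hv : OnV M.toCyc A v) (hvx : v ≠ x) :
    ∃ e, v ∈ e ∧ x ∉ e ∧ OnE M.toCyc A e := by
  obtain ⟨-, hver, -, -, -⟩ := h_IDX V F M.toCyc A (st M x A)
  obtain ⟨c, hc, hcv⟩ := hver v hv
  obtain ⟨hx0, -⟩ := h_WW0 V F M x A hA
  have h3 := M.three A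
  have hcv' : ww M x A c = v := hcv
  have hc1 : 1 ≤ c := by
    by_contra hcon
    have h0 : c = 0 := by omega
    subst h0
    exact hvx (hcv'.symm.trans hx0)
  by_cases hc2 : c + 1 < M.len A
  · obtain ⟨p1, p2⟩ := CLO_cx M x A hA c hc1 hc2
    exact ⟨_, by rw [← hcv']; exact Sym2.mem_mk_left _ _, p1, p2⟩
  · obtain ⟨p1, p2⟩ := CLO_cx M x A hA (c - 1) (by omega) (by omega)
    refine ⟨_, ?_, p1, p2⟩
    have h4 : c - 1 + 1 = c := by omega
    rw [h4, ← hcv']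
    exact Sym2.mem_mk_right _ _

theorem CLO (hSTE : STE_stmt) : CLO_stmt := by
  intro V F _ _ M x y J hT q hq T hne h2
  have walk : ∀ A, A ∈ T → OnV M.toCyc A x → ∀ e, OnE M.toCyc A e → x ∉ e → Has M x y J q e →
      ∀ e', OnE M.toCyc A e' → x ∉ e' → Has M x y J q e' := by
    intro A hAT hAx e he hxe hHe e' he' hxe'
    obtain ⟨a, ha1, ha2, rfl⟩ := CLO_idx M x A hAx e he hxe
    obtain ⟨b, hb1, hb2, rfl⟩ := CLO_idx M x A hAx e' he' hxe'
    have up : ∀ i, 1 ≤ i → i + 2 < M.len A → Has M x y J q s(ww M x A i, ww M x A (i + 1)) →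
        Has M x y J q s(ww M x A (i + 1), ww M x A (i + 1 + 1)) := by
      intro i h1 h3 hH
      obtain ⟨p1, p2⟩ := CLO_cx M x A hAx i h1 (by omega)
      obtain ⟨r1, r2⟩ := CLO_cx M x A hAx (i + 1) (by omega) (by omega)
      have hn := (h2 A _ (ww M x A (i + 1)) hAT hAx p2 p1 hH (Sym2.mem_mk_right _ _)).1
      exact hSTE V F M x y J hT q hq _ hn _ _ (Sym2.mem_mk_right _ _) (Sym2.mem_mk_left _ _)
        ⟨p1, A, hAx, p2⟩ ⟨r1, A, hAx, r2⟩ hH
    have down : ∀ i, 1 ≤ i → i + 2 < M.len A →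
        Has M x y J q s(ww M x A (i + 1), ww M x A (i + 1 + 1)) →
        Has M x y J q s(ww M x A i, ww M x A (i + 1)) := by
      intro i h1 h3 hH
      obtain ⟨p1, p2⟩ := CLO_cx M x A hAx i h1 (by omega)
      obtain ⟨r1, r2⟩ := CLO_cx M x A hAx (i + 1) (by omega) (by omega)
      have hn := (h2 A _ (ww M x A (i + 1)) hAT hAx r2 r1 hH (Sym2.mem_mk_left _ _)).1
      exact hSTE V F M x y J hT q hq _ hn _ _ (Sym2.mem_mk_left _ _) (Sym2.mem_mk_right _ _)
        ⟨r1, A, hAx, r2⟩ ⟨p1, A, hAx, p2⟩ hH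
    have h5 : ∀ d, a + d + 1 < M.len A →
        Has M x y J q s(ww M x A (a + d), ww M x A (a + d + 1)) := by
      intro d
      induction d with
      | zero => intro _; exact hHe
      | succ d ih => intro hd; exact up (a + d) (by omega) (by omega) (ih (by omega))
    have h6 : ∀ d, d < a → Has M x y J q s(ww M x A (a - d), ww M x A (a - d + 1)) := by
      intro d
      induction d with
      | zero => intro _; exact hHe
      | succ d ih =>
        intro hd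
        have h7 := ih (by omega)
        have h8 : a - d = a - (d + 1) + 1 := by omega
        rw [h8] at h7
        exact down (a - (d + 1)) (by omega) (by omega) h7
    rcases le_total a b with h | h
    · have h9 := h5 (b - a) (by omega)
      have h10 : a + (b - a) = b := by omega
      rw [h10] at h9
      exact h9
    · have h9 := h6 (a - b) (by omega)
      have h10 : a - (a - b) = b := by omega
      rw [h10] at h9
      exact h9
  obtain ⟨A0, e0, hA0T, hA0x, he0, hxe0, hH0⟩ := hne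
  have hlink := M.link x {A | A ∈ T ∧ OnV M.toCyc A x ∧
    ∀ e, OnE M.toCyc A e → x ∉ e → Has M x y J q e} (by
      intro e hxe f g hfe hge hf
      obtain ⟨hfT, hfx, hfall⟩ := hf
      obtain ⟨s, rfl⟩ := hxe
      obtain ⟨-, hfs, hxs⟩ := (h_EDG V F M).1 f x s hfe
      obtain ⟨hgx, hgs, -⟩ := (h_EDG V F M).1 g x s hge
      obtain ⟨e1, hse1, hxe1, hfe1⟩ := CLO_at M x f hfx s hfs (Ne.symm hxs)
      have hH1 := hfall e1 hfe1 hxe1
      obtain ⟨hny, hall⟩ := h2 f e1 s hfT hfx hfe1 hxe1 hH1 hse1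
      obtain ⟨e2, hse2, hxe2, hge2⟩ := CLO_at M x g hgx s hgs (Ne.symm hxs)
      have hH2 := hSTE V F M x y J hT q hq s hny e1 e2 hse1 hse2 ⟨hxe1, f, hfx, hfe1⟩
        ⟨hxe2, g, hgx, hge2⟩ hH1
      have hgT := hall g hgx hgs
      exact ⟨hgT, hgx, walk g hgT hgx e2 hge2 hxe2 hH2⟩)
  obtain ⟨B, hB⟩ := hT.j0
  obtain ⟨k, -, -, A, hAx, hAv⟩ := hT.jn B hB
  have hBy := hT.jy B hB
  have hBv : OnV M.toCyc B (ww M y B k) := ⟨_, rfl⟩
  have hvx : ww M y B k ≠ x := by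
    intro h
    rw [h] at hBv
    exact hT.ne B ⟨hBv, hBy⟩
  obtain ⟨hAT, -, hAall⟩ := hlink A0 A hA0x hAx ⟨hA0T, hA0x, walk A0 hA0T hA0x e0 he0 hxe0 hH0⟩
  obtain ⟨e, hve, hxe, hAe⟩ := CLO_at M x A hAx _ hAv hvx
  exact (h2 A e _ hAT hAx hAe hxe (hAall e hAe hxe) hve).1 ⟨B, hBy, hBv⟩

end Pool.Agent.helper84.NR
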